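import Pool.Agent.H22R3.Phase3
import Pool.Agent.H22R3.Three
import Pool.Agent.H22R3.Blocks

set_option autoImplicit false

namespace Pool.Agent.Results.MP_6bff71_co.BeatRandom

open Finset Pool.Agent.H22R3

/-- The number of monochromatic `k`-term arithmetic progressions of the colouring `χ` of
`{1,...,n}`: the number of sets `S` contained in `{1,...,n}`, of the form
`{a, a + d, ..., a + (k-1) d}` with `a ≥ 1`, `d ≥ 1`, on which `χ` is constant. -/
noncomputable def M {r : ℕ} (k n : ℕ) (χ : ℕ → Fin r) : ℕ :=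
  Set.ncard {S : Finset ℕ | S ⊆ Finset.Icc 1 n ∧
    (∃ a d : ℕ, 1 ≤ a ∧ 1 ≤ d ∧ S = (Finset.range k).image (fun i => a + i * d)) ∧
    ∃ c : Fin r, ∀ x ∈ S, χ x = c}

theorem M_eq {r : ℕ} (k n : ℕ) (hk : 2 ≤ k) (χ : ℕ → Fin r) :
    M k n χ = (monoPairs k n χ).card := by
  have hset : {S : Finset ℕ | S ⊆ Finset.Icc 1 n ∧
    (∃ a d : ℕ, 1 ≤ a ∧ 1 ≤ d ∧ S = (Finset.range k).image (fun i => a + i * d)) ∧
    ∃ c : Fin r, ∀ x ∈ S, χ x = c}
    = (((monoPairs k n χ).image (fun q => (Finset.range k).image (fun i => q.1 + i * q.2)) :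
      Finset (Finset ℕ)) : Set (Finset ℕ)) := by
    ext S
    simp only [Set.mem_ofPred_eq, coe_image, Set.mem_image, mem_coe, monoPairs, mem_filter,
      mem_pairs hk]
    constructor
    · rintro ⟨h1, ⟨a, d, ha, hd, rfl⟩, c, hc⟩
      refine ⟨(a, d), ⟨⟨ha, hd, ?_⟩, ?_⟩, rfl⟩
      · have : a + (k - 1) * d ∈ (Finset.range k).image (fun i => a + i * d) :=
          mem_image.2 ⟨k - 1, mem_range.2 (by omega), rfl⟩
        exact (mem_Icc.1 (h1 this)).2
      · intro i hi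
        have e1 : a + i * d ∈ (Finset.range k).image (fun i => a + i * d) :=
          mem_image.2 ⟨i, mem_range.2 hi, rfl⟩
        have e2 : a ∈ (Finset.range k).image (fun i => a + i * d) :=
          mem_image.2 ⟨0, mem_range.2 (by omega), by simp⟩
        simp only
        rw [hc _ e1, hc _ e2]
    · rintro ⟨⟨a, d⟩, ⟨⟨ha, hd, hn⟩, hc⟩, rfl⟩
      simp only at ha hd hn hc ⊢
      refine ⟨?_, ⟨a, d, ha, hd, rfl⟩, χ a, ?_⟩
      · intro x hx
        obtain ⟨i, hi, rfl⟩ := mem_image.1 hx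
        rw [mem_range] at hi
        have : i * d ≤ (k - 1) * d := Nat.mul_le_mul_right d (by omega)
        rw [mem_Icc]
        omega
      · intro x hx
        obtain ⟨i, hi, rfl⟩ := mem_image.1 hx
        exact hc i (mem_range.1 hi)
  unfold M
  rw [hset, Set.ncard_coe_finset, card_image_of_injOn]
  rintro ⟨a, d⟩ hq ⟨a', d'⟩ hq' heq
  simp only [Prod.mk.injEq]
  simp only at heq
  have hle : ∀ b e b' e' : ℕ, (Finset.range k).image (fun i => b + i * e)
      = (Finset.range k).image (fun i => b' + i * e') →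
      b' ≤ b ∧ b + (k - 1) * e ≤ b' + (k - 1) * e' := by
    intro b e b' e' h
    constructor
    · have : b ∈ (Finset.range k).image (fun i => b' + i * e') := by
        rw [← h]
        exact mem_image.2 ⟨0, mem_range.2 (by omega), by simp⟩
      obtain ⟨i, _, hi⟩ := mem_image.1 this
      have : 0 ≤ i * e' := Nat.zero_le _
      omega
    · have : b + (k - 1) * e ∈ (Finset.range k).image (fun i => b' + i * e') := by
        rw [← h]
        exact mem_image.2 ⟨k - 1, mem_range.2 (by omega), rfl⟩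
      obtain ⟨i, hi, hi2⟩ := mem_image.1 this
      rw [mem_range] at hi
      have : i * e' ≤ (k - 1) * e' := Nat.mul_le_mul_right e' (by omega)
      omega
  obtain ⟨h1, h2⟩ := hle _ _ _ _ heq
  obtain ⟨h3, h4⟩ := hle _ _ _ _ heq.symm
  have haa : a = a' := by omega
  refine ⟨haa, ?_⟩
  have : (k - 1) * d = (k - 1) * d' := by omega
  exact Nat.eq_of_mul_eq_mul_left (by omega) this

/-- the case of periodic colourings -/
theorem periodic_case (k : ℕ) (hk : 3 ≤ k) (r : ℕ) (hr : 2 ≤ r) (h : ¬ (k = 3 ∧ r = 2)) :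
    ∃ δ : ℝ, δ < 1 / (2 * ((k : ℝ) - 1) * (r : ℝ) ^ (k - 1)) ∧
      ∃ N : ℕ, 0 < N ∧ ∃ χ : ℕ → Fin r, (∀ x, χ (x + N) = χ x) ∧
        ∃ C : ℝ, ∀ n : ℕ, |(M k n χ : ℝ) - δ * (n : ℝ) ^ 2| ≤ C * n := by
  have hex : ∃ (N : ℕ) (_hN : NeZero N) (c : ZMod N → Fin r),
      ((monoZ k N c).card : ℝ) * (r : ℝ) ^ (k - 1) < (N : ℝ) ^ 2 := by
    by_cases hk3 : k = 3
    · subst hk3
      exact exists_colouring_three r (by omega)
    · exact exists_colouring_ge4 k r (by omega) hr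
  obtain ⟨N, hN, c, hc⟩ := hex
  obtain ⟨C, hC⟩ := periodic_count k N r (by omega) c
  refine ⟨((monoZ k N c).card : ℝ) / (2 * ((k : ℝ) - 1) * (N : ℝ) ^ 2), ?_, N,
    Nat.pos_of_ne_zero hN.out, fun x => c (x : ZMod N), ?_, C, ?_⟩
  · have hN0 : (0 : ℝ) < N := by exact_mod_cast Nat.pos_of_ne_zero hN.out
    have hk1 : (0 : ℝ) < 2 * ((k : ℝ) - 1) := by
      have : (3 : ℝ) ≤ k := by exact_mod_cast hk
      linarith
    have hr0 : (0 : ℝ) < (r : ℝ) ^ (k - 1) := by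
      have : 0 < r := by omega
      positivity
    rw [div_lt_div_iff₀ (by positivity) (by positivity), one_mul]
    calc ((monoZ k N c).card : ℝ) * (2 * ((k : ℝ) - 1) * (r : ℝ) ^ (k - 1))
        = (2 * ((k : ℝ) - 1)) * (((monoZ k N c).card : ℝ) * (r : ℝ) ^ (k - 1)) := by ring
      _ < (2 * ((k : ℝ) - 1)) * (N : ℝ) ^ 2 := mul_lt_mul_of_pos_left hc hk1
  · intro x
    simp
  · intro n
    rw [M_eq k n (by omega)]
    exact hC n

/-- **Random colourings are beaten for every `k ≥ 3` and `r ≥ 2`.** -/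
theorem result :
    ∀ k : ℕ, 3 ≤ k → ∀ r : ℕ, 2 ≤ r →
      ∃ δ : ℝ, δ < 1 / (2 * ((k : ℝ) - 1) * (r : ℝ) ^ (k - 1)) ∧
        ∃ χ : ℕ → ℕ → Fin r, ∃ C : ℝ, ∀ n : ℕ,
          |(M k n (χ n) : ℝ) - δ * (n : ℝ) ^ 2| ≤ C * n := by
  intro k hk r hr
  by_cases h : k = 3 ∧ r = 2
  · obtain ⟨rfl, rfl⟩ := h
    refine ⟨11 / 200, by norm_num, ?_⟩
    choose χ hχ using two_colours_three
    refine ⟨χ, 60, ?_⟩
    intro n
    rw [M_eq 3 n (by norm_num)]
    exact hχ n
  · obtain ⟨δ, hδ, N, hN, χ, hχ, C, hC⟩ := periodic_case k hk r hr h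
    exact ⟨δ, hδ, fun _ => χ, C, hC⟩

end Pool.Agent.Results.MP_6bff71_co.BeatRandom
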